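import Pool.Agent.W719.AR.Geo
import Pool.Agent.W374.HT.Cch
set_option autoImplicit false

/-!
# Arborescent links: critical configurations are solutions, the critical value is the volume
-/

namespace Pool.Agent.W571.AR

open Finset Filter Topology Metric
open Pool.Agent.W711.HT Pool.Agent.W719.AR
open Pool.Agent.W374.HT.Cch (cpt_facts der1 der2 hp valh valq)
open scoped Real

/-- the facts on a critical point -/
theorem facts {C ρ τ M : ℝ} (hC : 0 < C) (hM : 100 ≤ M) (hMC : C ≤ M) (a : ℤ)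
    (ha : M ≤ |(a : ℝ)|) (z : ℂ) (h : CPt C ρ τ a z) : z ∈ Rc ρ τ ∧ z ≠ 0 ∧ ‖z‖ ≤ 1 / 10 := by
  have hn : ((a.natAbs : ℕ) : ℝ) = |(a : ℝ)| := by
    rw [Nat.cast_natAbs, Int.cast_abs]
  have h100 : (100 : ℝ) ≤ ((a.natAbs : ℕ) : ℝ) := by
    rw [hn]
    linarith
  have h100' : 100 ≤ a.natAbs := by exact_mod_cast h100
  have hCn : C ≤ ((a.natAbs : ℕ) : ℝ) := by
    rw [hn]
    linarith
  have hex : ∃ e : ℝ, (e = 1 ∨ e = -1) ∧ (a : ℝ) = e * ((a.natAbs : ℕ) : ℝ) := by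
    rcases abs_choice (a : ℝ) with h1 | h1
    · refine ⟨1, Or.inl rfl, ?_⟩
      rw [hn, h1, one_mul]
    · refine ⟨-1, Or.inr rfl, ?_⟩
      rw [hn, h1]
      ring
  obtain ⟨e, he, hae⟩ := hex
  obtain ⟨h1, -, h3⟩ := cpt_facts hC a a.natAbs e he hae h100' hCn z h
  refine ⟨h.mem, ?_, h3⟩
  intro h0
  rw [h0] at h1
  simp at h1

theorem big_wt {M : ℝ} {D : ℕ} : ∀ p : PT, p.shape.Big M D → M ≤ |(p.wt : ℝ)|
  | .vx a z, h => h
  | .br t c, h => big_wt t h.1

/-- from an equation for the derivatives to the logarithmic equation -/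
theorem eqn' (a z g l : ℂ) (hg : g = -(1 / (2 * π)) * l)
    (h : Complex.I * a * z / (2 * π) + Complex.I + g = 0) :
    Complex.I * (a * z + 2 * π) = l := by
  have hpi : (π : ℂ) ≠ 0 := by exact_mod_cast Real.pi_ne_zero
  rw [hg] at h
  have h2 : (1 / (2 * (π : ℂ))) * (Complex.I * (a * z + 2 * π) - l) = 0 := by
    rw [← h]
    field_simp
    ring
  rcases mul_eq_zero.1 h2 with h4 | h4
  · exact absurd h4 (by
      have : (2 : ℂ) * π ≠ 0 := mul_ne_zero two_ne_zero hpi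
      exact one_div_ne_zero this)
  · exact sub_eq_zero.1 h4

/-- imaginary part of the logarithmic equation -/
theorem im_eq (a : ℤ) (z l : ℂ) (h : Complex.I * (a * z + 2 * π) = l) :
    (a : ℝ) * z.re + 2 * π = l.im := by
  rw [← h, Complex.I_mul_im, Complex.add_re]
  have e1 : ((a : ℂ) * z).re = (a : ℝ) * z.re := by
    have : ((a : ℤ) : ℂ) = (((a : ℤ) : ℝ) : ℂ) := by push_cast; rfl
    rw [this, Complex.re_ofReal_mul]
  have e2 : (2 * (π : ℂ)).re = 2 * π := by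
    have : (2 * (π : ℂ)) = ((2 * π : ℝ) : ℂ) := by push_cast; rfl
    rw [this, Complex.ofReal_re]
  rw [e1, e2]

theorem val_re (a : ℤ) (z : ℂ) :
    2 * π * (Complex.I * a * z ^ 2 / (4 * π) + Complex.I * z).re =
      -(z.im * ((a : ℝ) * z.re + 2 * π)) := by
  have h := valq (a : ℝ) z
  have e1 : (((a : ℝ) : ℝ) : ℂ) = ((a : ℤ) : ℂ) := by push_cast; rfl
  rw [e1] at h
  exact h

theorem ind (hP : S_POTH) {ρ τ κ c : ℝ} {s dl : ℂ → ℂ → ℂ} (hK : KD ρ τ κ c s dl) {C M : ℝ}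
    {D : ℕ} (hC : 0 < C) (hM : 100 ≤ M) (hMC : C ≤ M) : ∀ p : PT, p.shape.Big M D →
      p.Crt s C ρ τ → CPt C ρ τ p.wt p.rz →
      p.gs s = -(1 / (2 * π)) * p.lg dl ∧ p.hpt dl ∧ p.lcr dl ∧
      2 * π * (p.vl s).re = p.hs dl + p.rz.im * (p.lg dl).im
  | .vx a z, _, _, _ => by
      refine ⟨?_, trivial, trivial, ?_⟩
      · simp [PT.gs, PT.lg]
      · simp [PT.vl, PT.hs, PT.lg]
  | .br t d, hB, hCr, hCp => by
      obtain ⟨hB1, hB2, -⟩ := hB
      obtain ⟨hC1, hC2, hC3, hC4⟩ := hCr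
      obtain ⟨i1, i2, i3, i4⟩ := ind hP hK hC hM hMC t hB1 hC1 hCp
      obtain ⟨j1, j2, j3, j4⟩ := ind hP hK hC hM hMC d hB2 hC2 hC3
      obtain ⟨t1, t2, t3⟩ := facts hC hM hMC t.wt (big_wt t hB1) t.rz hCp
      obtain ⟨d1, d2, d3⟩ := facts hC hM hMC d.wt (big_wt d hB2) d.rz hC3
      have hpp := hp hK d1 t1 d2 t2 d3 t3
      have hD1 := der1 hK d1 t1
      have hD2 := der2 hK d1 t1
      have hV := valh hP hK d1 t1 d3 t3
      have hE : Complex.I * (d.wt * d.rz + 2 * π) = Lg (2 * π * dl d.rz t.rz) d.rz + d.lg dl := by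
        refine eqn' _ _ (d.gs s + deriv (fun w => s w t.rz) d.rz) _ ?_ ?_
        · rw [j1, hD1]
          ring
        · rw [← hC4]
          ring
      have hI := im_eq d.wt d.rz _ hE
      rw [Complex.add_im] at hI
      have hVr := val_re d.wt d.rz
      refine ⟨?_, ⟨i2, j2, hpp⟩, ⟨i3, j3, hE⟩, ?_⟩
      · simp only [PT.gs, PT.lg]
        rw [i1, hD2]
        ring
      · simp only [PT.vl, PT.hs, PT.lg, PT.rz]
        rw [Complex.add_im]
        have e1 : (t.vl s + (Complex.I * d.wt * d.rz ^ 2 / (4 * π) + Complex.I * d.rz + d.vl s +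
            s d.rz t.rz)).re = (t.vl s).re
              + ((Complex.I * d.wt * d.rz ^ 2 / (4 * π) + Complex.I * d.rz).re + (d.vl s).re
                + (s d.rz t.rz).re) := by
          rw [Complex.add_re, Complex.add_re, Complex.add_re]
        rw [e1]
        linear_combination i4 + hVr + j4 + hV + (-d.rz.im) * hI

theorem cct (hP : S_POTH) : S_CCT := by
  intro ρ τ κ c s dl hK C hC D
  refine ⟨max 100 C, ?_⟩
  intro p hB _ hCr hCp hE
  obtain ⟨i1, i2, i3, i4⟩ := ind hP hK hC (le_max_left _ _) (le_max_right _ _) p hB hCr hCp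
  have hE' := eqn' _ _ _ _ i1 hE
  refine ⟨i2, i3, hE', ?_⟩
  have hI := im_eq p.wt p.rz _ hE'
  have hVr := val_re p.wt p.rz
  rw [Complex.add_re]
  linear_combination hVr + i4 + (-p.rz.im) * hI

end Pool.Agent.W571.AR
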