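import Pool.Agent.W719.AR.Rt
set_option autoImplicit false

/-!
# Arborescent links: limit of the trace at the root of unity
-/

namespace Pool.Agent.W571.AR

open Finset Filter Topology
open Pool.Agent.H550R3.Jones Pool.Agent.W711.HT Pool.Agent.W719.AR
open scoped Real

theorem vN_ne (N : ℕ) : vN N ≠ 0 := Complex.exp_ne_zero _

theorem ev_ne (v0 : ℂ) : ∀ᶠ v in 𝓝[≠] v0, v ≠ 0 := by
  have h : ({0} : Set ℂ)ᶜ ∈ cofinite := (Set.finite_singleton (0 : ℂ)).compl_mem_cofinite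
  exact nhdsNE_le_cofinite v0 h

theorem br_ev_ne (v0 : ℂ) (n : ℤ) (hn : n ≠ 0) : ∀ᶠ v in 𝓝[≠] v0, br v n ≠ 0 := by
  have hk : 0 < (2 * n).natAbs := by omega
  have hfin : {v : ℂ | v ^ (2 * n).natAbs = 1}.Finite := by
    refine (Polynomial.nthRootsFinset (2 * n).natAbs (1 : ℂ)).finite_toSet.subset ?_
    intro v hv
    rw [Finset.mem_coe, Polynomial.mem_nthRootsFinset hk]
    exact hv
  have h : {v : ℂ | v ^ (2 * n).natAbs = 1}ᶜ ∈ cofinite := hfin.compl_mem_cofinite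
  filter_upwards [nhdsNE_le_cofinite v0 h, ev_ne v0] with v hv hv0 hbr
  apply hv
  unfold br at hbr
  have h1 : v ^ (2 * n) = 1 := by
    have h2 : v ^ n = v ^ (-n) := sub_eq_zero.1 hbr
    rw [two_mul, zpow_add₀ hv0]
    nth_rewrite 1 [h2]
    rw [← zpow_add₀ hv0, neg_add_cancel, zpow_zero]
  change v ^ (2 * n).natAbs = 1
  rcases Int.natAbs_eq (2 * n) with h3 | h3
  · rw [h3, zpow_natCast] at h1
    exact h1
  · rw [h3, zpow_neg, zpow_natCast, inv_eq_one] at h1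
    exact h1

theorem br_cont (v0 : ℂ) (hv0 : v0 ≠ 0) (n : ℤ) : ContinuousAt (fun v => br v n) v0 :=
  (continuousAt_zpow₀ v0 n (Or.inl hv0)).sub (continuousAt_zpow₀ v0 (-n) (Or.inl hv0))

theorem un_sub (v : ℂ) (hv : v ≠ 0) (N a : ℤ) :
    (v ^ a + v ^ (-a)) - (v ^ (2 * N - a) + v ^ (-(2 * N - a))) = -(br v N * br v (N - a)) := by
  unfold br
  have e1 : v ^ (2 * N - a) = v ^ N * v ^ N * (v ^ a)⁻¹ := by
    rw [two_mul, zpow_sub₀ hv, zpow_add₀ hv, div_eq_mul_inv]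
  have e2 : v ^ (N - a) = v ^ N * (v ^ a)⁻¹ := by
    rw [zpow_sub₀ hv, div_eq_mul_inv]
  have hp : v ^ N ≠ 0 := zpow_ne_zero _ hv
  have hq : v ^ a ≠ 0 := zpow_ne_zero _ hv
  rw [zpow_neg, zpow_neg, zpow_neg, zpow_neg, e1, e2]
  field_simp
  ring

theorem br_add (v : ℂ) (hv : v ≠ 0) (N a : ℤ) :
    br v a + br v (2 * N - a) = br v N * (v ^ (N - a) + v ^ (-(N - a))) := by
  unfold br
  have e1 : v ^ (2 * N - a) = v ^ N * v ^ N * (v ^ a)⁻¹ := by
    rw [two_mul, zpow_sub₀ hv, zpow_add₀ hv, div_eq_mul_inv]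
  have e2 : v ^ (N - a) = v ^ N * (v ^ a)⁻¹ := by
    rw [zpow_sub₀ hv, div_eq_mul_inv]
  have hp : v ^ N ≠ 0 := zpow_ne_zero _ hv
  have hq : v ^ a ≠ 0 := zpow_ne_zero _ hv
  rw [zpow_neg, zpow_neg, zpow_neg, zpow_neg, e1, e2]
  field_simp
  ring

theorem lmt (hD : S_LMD) (hG : S_GAM) : S_LMT := by
  intro N x F hN hL
  have hdd := hD N x F hN hL (N - 1) (by omega)
  have hN0 : (N : ℤ) ≠ 0 := by omega
  have hNC : (N : ℂ) ≠ 0 := by exact_mod_cast (by omega : N ≠ 0)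
  rw [Nat.sub_self, pow_zero, mul_one] at hdd
  have hR : (fun ψ => F ψ * Rp N 0 ψ * kr N ψ) = fun ψ => F ψ * kr N ψ := by
    funext ψ
    unfold Rp
    rw [Finset.range_zero, Finset.prod_empty, mul_one]
  rw [hR] at hdd
  set y : ℂ → ℕ → ℂ := fun v c => ((N : ℂ) ^ 2 * gam N v c - 1) * x v c with hy
  have hz0 : ∀ c < N, Tendsto (fun v => (N : ℂ) ^ 2 * gam N v c - 1) (𝓝[≠] vN N) (𝓝 0) := by
    intro c hc
    have h1 := ((hG N hN c hc).1.const_mul ((N : ℂ) ^ 2)).sub_const 1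
    have h2 : (N : ℂ) ^ 2 * (1 / (N : ℂ) ^ 2) - 1 = 0 := by
      field_simp
      ring
    rw [h2] at h1
    exact h1
  have hy0 : ∀ c < N, Tendsto (fun v => y v c) (𝓝[≠] vN N) (𝓝 0) := by
    intro c hc
    have h1 := (hz0 c hc).mul (hL.l0 c hc)
    rw [zero_mul] at h1
    exact h1
  have hy1 : ∀ c < N, 2 * c + 1 ≠ N →
      Tendsto (fun v => (y v c - y v (N - 1 - c)) / (un v c - un v (N - 1 - c)))
        (𝓝[≠] vN N) (𝓝 0) := by
    intro c hc hcN
    have h1 := (((hG N hN c hc).2 hcN).const_mul ((N : ℂ) ^ 2)).mul (hL.l0 c hc)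
    have h2 := (hz0 (N - 1 - c) (by omega)).mul (hL.l1 c hc hcN)
    have h3 := h1.add h2
    rw [mul_zero, zero_mul, zero_mul, add_zero] at h3
    refine h3.congr (fun v => ?_)
    simp only [hy]
    ring
  -- pairs
  have hpair : ∀ c < N, Tendsto (fun v => (y v c * br v (2 * (c : ℤ) + 1)
      + y v (N - 1 - c) * br v (2 * ((N - 1 - c : ℕ) : ℤ) + 1)) / br v N) (𝓝[≠] vN N) (𝓝 0) := by
    intro c hc
    have hc' : (2 * ((N - 1 - c : ℕ) : ℤ) + 1) = 2 * (N : ℤ) - (2 * (c : ℤ) + 1) := by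
      omega
    by_cases hcN : 2 * c + 1 = N
    · have h1 : N - 1 - c = c := by omega
      have h2 : (2 * (c : ℤ) + 1) = N := by omega
      have h3 := (hy0 c hc).add (hy0 c hc)
      rw [add_zero] at h3
      refine h3.congr' ?_
      filter_upwards [br_ev_ne (vN N) N hN0] with v hv
      rw [h1, h2]
      field_simp
    · have h1 : Tendsto (fun v => -(br v ((N : ℤ) - (2 * (c : ℤ) + 1)) * br v (2 * (c : ℤ) + 1)))
          (𝓝[≠] vN N) (𝓝 (-(br (vN N) ((N : ℤ) - (2 * (c : ℤ) + 1))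
            * br (vN N) (2 * (c : ℤ) + 1)))) :=
        ((((br_cont _ (vN_ne N) _).mul (br_cont _ (vN_ne N) _)).neg).tendsto).mono_left
          nhdsWithin_le_nhds
      have h2 : Tendsto (fun v : ℂ => v ^ ((N : ℤ) - (2 * (c : ℤ) + 1))
          + v ^ (-((N : ℤ) - (2 * (c : ℤ) + 1)))) (𝓝[≠] vN N)
          (𝓝 ((vN N) ^ ((N : ℤ) - (2 * (c : ℤ) + 1))
            + (vN N) ^ (-((N : ℤ) - (2 * (c : ℤ) + 1))))) :=
        (((continuousAt_zpow₀ (vN N) _ (Or.inl (vN_ne N))).add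
          (continuousAt_zpow₀ (vN N) _ (Or.inl (vN_ne N)))).tendsto).mono_left nhdsWithin_le_nhds
      have h3 := ((hy1 c hc hcN).mul h1).add ((hy0 (N - 1 - c) (by omega)).mul h2)
      rw [zero_mul, zero_mul, add_zero] at h3
      refine h3.congr' ?_
      have hne : (N : ℤ) - (2 * (c : ℤ) + 1) ≠ 0 := by omega
      filter_upwards [br_ev_ne (vN N) N hN0, br_ev_ne (vN N) _ hne, ev_ne (vN N)] with v hv1 hv2 hv0
      have e1 : un v c - un v (N - 1 - c) = -(br v N * br v ((N : ℤ) - (2 * (c : ℤ) + 1))) := by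
        have := un_sub v hv0 N (2 * (c : ℤ) + 1)
        unfold un
        rw [hc']
        exact this
      have e2 := br_add v hv0 N (2 * (c : ℤ) + 1)
      rw [e1, hc']
      have e3 : br v (2 * (N : ℤ) - (2 * (c : ℤ) + 1)) = br v N * (v ^ ((N : ℤ) - (2 * (c : ℤ) + 1))
          + v ^ (-((N : ℤ) - (2 * (c : ℤ) + 1)))) - br v (2 * (c : ℤ) + 1) := by
        rw [← e2]
        ring
      rw [e3]
      set A := br v (2 * (c : ℤ) + 1)
      set B := br v ((N : ℤ) - (2 * (c : ℤ) + 1))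
      set E := v ^ ((N : ℤ) - (2 * (c : ℤ) + 1)) + v ^ (-((N : ℤ) - (2 * (c : ℤ) + 1)))
      field_simp
      ring
  have hsum0 : Tendsto (fun v => ∑ c ∈ range N, y v c * br v (2 * (c : ℤ) + 1) / br v N)
      (𝓝[≠] vN N) (𝓝 0) := by
    have h1 := tendsto_finsetSum (range N) (fun c hc => hpair c (Finset.mem_range.1 hc))
    rw [Finset.sum_const_zero] at h1
    have h2 := h1.const_mul (1 / 2 : ℂ)
    rw [mul_zero] at h2
    refine h2.congr (fun v => ?_)
    have h3 : ∑ c ∈ range N, y v (N - 1 - c) * br v (2 * ((N - 1 - c : ℕ) : ℤ) + 1) / br v N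
        = ∑ c ∈ range N, y v c * br v (2 * (c : ℤ) + 1) / br v N :=
      Finset.sum_range_reflect (fun c => y v c * br v (2 * (c : ℤ) + 1) / br v N) N
    have h4 : ∑ c ∈ range N, (y v c * br v (2 * (c : ℤ) + 1)
        + y v (N - 1 - c) * br v (2 * ((N - 1 - c : ℕ) : ℤ) + 1)) / br v N
        = (∑ c ∈ range N, y v c * br v (2 * (c : ℤ) + 1) / br v N)
          + ∑ c ∈ range N, y v (N - 1 - c) * br v (2 * ((N - 1 - c : ℕ) : ℤ) + 1) / br v N := by
      rw [← Finset.sum_add_distrib]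
      exact Finset.sum_congr rfl (fun c _ => add_div _ _ _)
    rw [h4, h3]
    ring
  have hfin := (hdd.const_mul ((N : ℂ) ^ 2)).sub hsum0
  have hlim : (N : ℂ) ^ 2 * (Complex.I / (2 * π) * upp (1 / N) fun ψ => F ψ * kr N ψ) - 0
      = Complex.I * N ^ 2 / (2 * π) * upp (1 / N) fun ψ => F ψ * kr N ψ := by
    rw [sub_zero]
    ring
  rw [hlim] at hfin
  refine hfin.congr' ?_
  have hall : ∀ᶠ v in 𝓝[≠] vN N, ∀ c ∈ range N, br v (2 * (c : ℤ) + 1) ≠ 0 :=
    (eventually_all_finset (range N)).2 (fun c _ => br_ev_ne (vN N) _ (by omega))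
  filter_upwards [hall, br_ev_ne (vN N) N hN0] with v hv hvN
  have e1 : N - 1 + 1 = N := by omega
  unfold dd
  rw [e1, Finset.mul_sum, ← Finset.sum_sub_distrib, Finset.sum_div]
  refine Finset.sum_congr rfl (fun c hc => ?_)
  have hvc := hv c hc
  simp only [hy]
  unfold gam
  rcases eq_or_ne (∏ j ∈ (range N).erase c, (un v c - un v j)) 0 with h0 | h0
  · rw [h0]
    simp
    ring
  · field_simp
    ring

end Pool.Agent.W571.AR
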